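import Pool.Agent.EDX.Stmts3

/-!
# Row HDG of squad EDX: digits
-/

set_option autoImplicit false

namespace Pool.Agent.EDX.H31

open Polynomial Finset Pool.Agent.EDG Pool.Agent.EDX

theorem hdg_two (b : ℂ) (l : ℕ) : ∀ (y : ℂ) (a c : ℕ), c < 2 ^ l →
    ev b y (h (2 ^ l * a + c)) = ev b (it b y l) (h a) * ev b y (h c) := by
  induction l with
  | zero =>
    intro y a c hc
    have h1 : c = 0 := by simpa using hc
    subst h1
    rw [pow_zero, one_mul, add_zero, h_zero, map_one, mul_one, it_zero]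
  | succ l ih =>
    intro y a c hc
    rcases Nat.even_or_odd' c with ⟨k, hk | hk⟩
    · have h1 : 2 ^ (l + 1) * a + c = 2 * (2 ^ l * a + k) := by
        rw [hk]
        ring
      have h2 : k < 2 ^ l := by
        rw [pow_succ] at hc
        omega
      rw [h1, h_two_mul, ev_comp_F, ih _ _ _ h2, ← it_succ', hk, h_two_mul, ev_comp_F]
    · have h1 : 2 ^ (l + 1) * a + c = 2 * (2 ^ l * a + k) + 1 := by
        rw [hk]
        ring
      have h2 : k < 2 ^ l := by
        rw [pow_succ] at hc
        omega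
      rw [h1, h_two_mul_add_one, map_mul, ev_comp_F, ih _ _ _ h2, ← it_succ', hk,
        h_two_mul_add_one, map_mul, ev_comp_F]
      ring

theorem hdg : HdgStmt := by
  intro b y q₀ m
  induction m generalizing y with
  | zero =>
    intro e
    simp [h_zero]
  | succ m ih =>
    intro e
    rw [Fin.sum_univ_succ, Fin.prod_univ_succ]
    have h1 : (e 0 : ℕ) * (2 ^ q₀) ^ ((0 : Fin (m + 1)) : ℕ) +
        ∑ i : Fin m, (e i.succ : ℕ) * (2 ^ q₀) ^ (i.succ : ℕ) =
        2 ^ q₀ * ∑ i : Fin m, (e i.succ : ℕ) * (2 ^ q₀) ^ (i : ℕ) + (e 0 : ℕ) := by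
      rw [mul_sum, add_comm]
      congr 1
      · refine sum_congr rfl fun i _ => ?_
        rw [Fin.val_succ, pow_succ]
        ring
      · simp
    rw [h1, hdg_two b q₀ y _ _ (e 0).isLt, ih (it b y q₀) fun i => e i.succ, mul_comm]
    congr 1
    refine prod_congr rfl fun i _ => ?_
    rw [← it_add, Fin.val_succ]
    congr 3
    ring

end Pool.Agent.EDX.H31
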