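import Pool.Agent.EDX.Stmts1
import Pool.Agent.Helper41_EDG.HBA

/-!
# Row HPC of squad EDX: products of basis elements
-/

set_option autoImplicit false

namespace Pool.Agent.EDX.H31

open Polynomial Finset Pool.Agent.EDG Pool.Agent.EDX

/-- a combination of the `h_e` of small degree uses only the `h_e` with small `e` -/
theorem cut (N d : ℕ) : ∀ (N' : ℕ) (p : ℤ[X][X]), InF N' d p → p.natDegree < N → InF N d p := by
  intro N'
  induction N' with
  | zero =>
    intro p hp _
    exact hp.mono (Nat.zero_le _) le_rfl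
  | succ M ih =>
    intro p hp hd
    by_cases hM : M + 1 ≤ N
    · exact hp.mono hM le_rfl
    · obtain ⟨P, h1, h2⟩ := hp
      have h4 : p.coeff M = 0 := coeff_eq_zero_of_natDegree_lt (by omega)
      have h5 : p.coeff M = P M := by
        rw [h2, sum_range_succ, coeff_add, finset_sum_coeff]
        have h6 : ∑ b ∈ range M, (C (P b) * h b).coeff M = 0 := by
          refine sum_eq_zero fun b hb => ?_
          rw [coeff_C_mul, coeff_eq_zero_of_natDegree_lt, mul_zero]
          rw [h_natDegree]
          exact mem_range.mp hb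
        have h7 : (h M).coeff M = 1 := by
          have h8 := h_monic M
          rw [Monic, leadingCoeff, h_natDegree] at h8
          exact h8
        rw [h6, zero_add, coeff_C_mul, h7, mul_one]
      refine ih p ⟨P, h1, ?_⟩ hd
      rw [h2, sum_range_succ, ← h5, h4, C_0, zero_mul, add_zero]

theorem big (q e₀ : ℕ) (he : e₀ < 2 ^ q) (l : ℕ) :
    ∀ e : ℕ, ∃ N' : ℕ, InF N' (q + 1) (h (2 ^ l * e₀) * h e) := by
  induction l with
  | zero =>
    intro e
    obtain ⟨N', hN⟩ := Pool.Agent.EDG.H41.hba e₀ (e + 1) 1 (h e) (InF_h e)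
    refine ⟨N', ?_⟩
    rw [pow_zero, one_mul]
    have h1 : Nat.size e₀ ≤ q := Nat.size_le.mpr he
    exact hN.mono le_rfl (by omega)
  | succ l ih =>
    intro e
    have h1 : 2 ^ (l + 1) * e₀ = 2 * (2 ^ l * e₀) := by ring
    rw [h1, h_two_mul]
    rcases Nat.even_or_odd' e with ⟨k, hk | hk⟩
    · obtain ⟨N', hN⟩ := ih k
      refine ⟨2 * N', ?_⟩
      rw [hk, h_two_mul, ← mul_comp]
      exact hN.comp_F
    · obtain ⟨N', hN⟩ := ih k
      refine ⟨2 * N', ?_⟩
      rw [hk, h_two_mul_add_one]
      have h2 : (h (2 ^ l * e₀)).comp F * (X * (h k).comp F) =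
          X * ((h (2 ^ l * e₀)) * h k).comp F := by
        rw [mul_comp]
        ring
      rw [h2]
      exact hN.X_mul_comp_F

theorem hpc : HpcStmt := by
  intro l q e₀ e he
  obtain ⟨N', hN⟩ := big q e₀ he l e
  refine cut _ _ N' _ hN ?_
  rw [(h_monic _).natDegree_mul (h_monic _), h_natDegree, h_natDegree]
  exact Nat.lt_succ_self _

end Pool.Agent.EDX.H31
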